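import Pool.Agent.GEN.StmtsPT

/-!
# Squad GEN, block PT, row KOT: Koszul exactness modulo the variables outside `T`
-/

set_option autoImplicit false

namespace Pool.Agent.GEN.PT.H94

open Finset Pool.Agent.GEN.PT
open scoped Classical

/-- **Row KOT.** Koszul exactness modulo the variables outside `T`. -/
theorem kot (hPIP : PipStmt) (hKD2 : Kd2Stmt) (hKOS : KosStmt) : KotStmt := by
  intro Λ D A _ _ _ ν hν f T Q
  have hidem : ∀ p : MvPolynomial Λ A, res T (res T p) = res T p := by
    intro p
    have h := (hPIP Λ A ∅).1 T T p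
    rwa [Finset.inter_self] at h
  refine ⟨?_, ?_⟩
  · intro hR p x hx hkx
    let K : Ideal (MvPolynomial Λ A) := RingHom.ker (res (A := A) T)
    let π : MvPolynomial Λ A →+* (MvPolynomial Λ A ⧸ K) := Ideal.Quotient.mk K
    have hπ : Function.Surjective π := Ideal.Quotient.mk_surjective
    have hker : ∀ g, π g = 0 ↔ res T g = 0 := by
      intro g
      rw [Ideal.Quotient.eq_zero_iff_mem]
      exact RingHom.mem_ker
    have hspan : ∀ (Q' : Finset D) g,
        π g ∈ Ideal.span ((fun j => π (f j)) '' (Q' : Set D)) ↔ g ∈ JT f T Q' := by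
      intro Q' g
      have h1 : Ideal.span ((fun j => π (f j)) '' (Q' : Set D)) =
          Ideal.map π (Ideal.span (f '' (Q' : Set D))) := by
        rw [Ideal.map_span, Set.image_image]
      rw [h1]
      exact Ideal.mem_quotient_iff_mem_sup
    obtain ⟨y₀, hy₀, hy₀'⟩ := hKOS D (MvPolynomial Λ A ⧸ K) ν hν (fun j => π (f j)) Q (by
      intro Q' hQ' j hj hj' g hg
      obtain ⟨g', rfl⟩ := hπ g
      rw [hspan]
      apply hR Q' hQ' j hj hj'
      rw [← hspan, map_mul]
      exact hg) p (fun S => π (x S)) (by
        intro S hS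
        exact hx S (fun h => hS (by simp only [h, map_zero]))) (by
        intro S
        rw [← (hKD2 D _ ν hν).2.1 _ π f x S]
        exact (hker _).2 (hkx S))
    choose s hs using hπ
    have hπy : ∀ S, π (res T (if y₀ S = 0 then 0 else s (y₀ S))) = y₀ S := by
      intro S
      have h1 : π (if y₀ S = 0 then 0 else s (y₀ S)) = y₀ S := by
        split_ifs with h
        · rw [map_zero, h]
        · exact hs _
      have h2 : π (res T (if y₀ S = 0 then 0 else s (y₀ S)) -
          (if y₀ S = 0 then 0 else s (y₀ S))) = 0 := by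
        rw [hker, map_sub, hidem, sub_self]
      rw [map_sub, sub_eq_zero] at h2
      rw [h2, h1]
    refine ⟨fun S => res T (if y₀ S = 0 then 0 else s (y₀ S)), ?_, fun S => hidem _, ?_⟩
    · intro S hS
      apply hy₀ S
      intro h
      apply hS
      simp only [h, if_true, map_zero]
    · intro S
      have h1 := (hKD2 D _ ν hν).2.1 _ π f
        (fun S => res T (if y₀ S = 0 then 0 else s (y₀ S))) S
      have h2 : (fun S' => π (res T (if y₀ S' = 0 then 0 else s (y₀ S')))) = y₀ := funext hπy
      rw [h2, hy₀' S] at h1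
      have h3 : π (kd ν f (fun S => res T (if y₀ S = 0 then 0 else s (y₀ S))) S - x S) = 0 := by
        rw [map_sub, h1, sub_self]
      rw [hker, map_sub, sub_eq_zero] at h3
      exact h3
  · intro P hP
    obtain ⟨a, ha, k, hk, hak⟩ := Submodule.mem_sup.1 hP
    obtain ⟨c, hc⟩ := (Submodule.mem_span_image_finset_iff_exists_fun' _).1 ha
    have hyj : ∀ j, (∑ j' ∈ Q, if ({j} : Finset D) = {j'} then res T (c j') else 0) =
        if j ∈ Q then res T (c j) else 0 := by
      intro j
      simp only [Finset.singleton_inj]
      rw [Finset.sum_ite_eq]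
    refine ⟨fun S => ∑ j ∈ Q, if S = {j} then res T (c j) else 0, ?_, ?_, ?_⟩
    · intro S hS
      obtain ⟨j, hj, hj'⟩ := Finset.exists_ne_zero_of_sum_ne_zero hS
      have hSj : S = {j} := by
        by_contra h
        rw [if_neg h] at hj'
        exact hj' rfl
      rw [hSj]
      exact ⟨Finset.card_singleton j, Finset.singleton_subset_iff.2 hj⟩
    · intro S
      simp only [map_sum]
      refine Finset.sum_congr rfl fun j _ => ?_
      split_ifs
      · exact hidem _
      · exact map_zero _
    · have h1 : kd ν f (fun S => ∑ j ∈ Q, if S = {j} then res T (c j) else 0) ∅ =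
          ∑ j ∈ Q, f j * res T (c j) := by
        unfold kd
        simp only [Finset.sdiff_empty, Finset.filter_empty, Finset.card_empty, pow_zero, one_mul,
          insert_empty_eq]
        simp only [hyj, mul_ite, mul_zero]
        rw [← Finset.sum_filter]
        refine Finset.sum_congr ?_ fun _ _ => rfl
        ext j
        simp
      have hk' : res T k = 0 := RingHom.mem_ker.1 hk
      rw [h1, ← hak, map_add, hk', add_zero, ← hc, map_sum, map_sum]
      refine Finset.sum_congr rfl fun j _ => ?_
      rw [map_mul, hidem, smul_eq_mul, map_mul, mul_comm]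

end Pool.Agent.GEN.PT.H94
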